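import Mathlib

namespace Pool.Agent.H.MP_c02c06_co

open Finset

def Sol (r : ℕ) (a : ℕ → ℕ) : Prop :=
  a 0 = 0 ∧ (∀ n, 1 ≤ n → 1 ≤ a n) ∧ Monotone a ∧ ∀ n, 1 ≤ n → a (∑ i ∈ range r, a (n - i)) = n

def AG (r : ℕ) (a : ℕ → ℕ) : Prop :=
  Sol r a ∧ ∀ b, Sol r b → ∀ n, (∀ k < n, b k = a k) → a n ≤ b n

noncomputable def mult (a : ℕ → ℕ) (n : ℕ) : ℕ∞ := {i | 1 ≤ i ∧ a i = n}.encard

noncomputable def maxMult (a : ℕ → ℕ) : ℕ∞ := ⨆ n, ⨆ _ : 1 ≤ n, mult a n

def g (r : ℕ) : ℕ → ℕ
  | 0 => 0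
  | 1 => 1
  | 2 => 2
  | 3 => 2
  | n + 4 => g r (n + 3) + if ∑ i ∈ range r,
      (if _h : g r (n + 3) + 1 - i < n + 4 then g r (g r (n + 3) + 1 - i) else 0) ≤ n + 4 then 1 else 0

def S (r k : ℕ) : ℕ := ∑ i ∈ range r, g r (k - i)

variable {r : ℕ}

lemma g0 : g r 0 = 0 := by rw [g]
lemma g1 : g r 1 = 1 := by rw [g]
lemma g2 : g r 2 = 2 := by rw [g]
lemma g3 : g r 3 = 2 := by rw [g]

lemma step (n : ℕ) : g r n ≤ g r (n + 1) ∧ g r (n + 1) ≤ g r n + 1 := by
  match n with
  | 0 => simp [g0, g1]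
  | 1 => simp [g1, g2]
  | 2 => simp [g2, g3]
  | n + 3 => rw [g]; split_ifs <;> omega

lemma mono : Monotone (g r) := monotone_nat_of_le_succ fun n => (step n).1

lemma lip (n k : ℕ) : g r (n + k) ≤ g r n + k := by
  induction k with
  | zero => simp
  | succ k ih => have := (step (r := r) (n + k)).2; rw [← add_assoc]; omega

lemma lt (n : ℕ) (h : 3 ≤ n) : g r n < n := by
  have := lip (r := r) 3 (n - 3)
  rw [g3, show 3 + (n - 3) = n by omega] at this
  omega

lemma pos (n : ℕ) (h : 1 ≤ n) : 1 ≤ g r n := g1.symm.le.trans (mono h)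

lemma two (n : ℕ) (h : 2 ≤ n) : 2 ≤ g r n := g2.symm.le.trans (mono h)

lemma rec (n : ℕ) (h : 3 ≤ n) :
    g r (n + 1) = g r n + if S r (g r n + 1) ≤ n + 1 then 1 else 0 := by
  obtain ⟨n, rfl⟩ : ∃ m, n = m + 3 := ⟨n - 3, by omega⟩
  have := lt (r := r) (n + 3) h
  rw [g, sum_congr rfl fun i _ => dif_pos (by omega)]
  rfl

lemma S_succ (k : ℕ) : S r (k + 1) + g r (k + 1 - r) = S r k + g r (k + 1) := by
  have a := sum_range_succ (fun i => g r (k + 1 - i)) r
  have b := sum_range_succ' (fun i => g r (k + 1 - i)) r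
  simp only [Nat.add_sub_add_right, Nat.sub_zero] at b
  unfold S
  omega

lemma S0 : S r 0 = 0 := by simp [S, g0]

lemma S1 (hr : 2 ≤ r) : S r 1 = 1 := by
  have := S_succ (r := r) 0
  rw [S0, show 0 + 1 - r = 0 by omega, g0, g1] at this
  omega

lemma S2 (hr : 2 ≤ r) : S r 2 = 3 := by
  have := S_succ (r := r) 1
  rw [S1 hr, show 1 + 1 - r = 0 by omega, g0, g2] at this
  omega

lemma S3' (hr : 2 ≤ r) : 4 ≤ S r (2 + 1) ∧ S r (2 + 1) ≤ 5 ∧ S r (2 + 1) ≤ r + 2 := by
  have := S_succ (r := r) 2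
  rw [S2 hr, g3] at this
  rcases hr.eq_or_lt with rfl | h
  · rw [show 2 + 1 - 2 = 1 by rfl, g1] at this; omega
  · rw [show 2 + 1 - r = 0 by omega, g0] at this; omega

lemma S3 (hr : 2 ≤ r) : 4 ≤ S r 3 ∧ S r 3 ≤ 5 ∧ S r 3 ≤ r + 2 := S3' hr

lemma I1 (hr : 2 ≤ r) (n : ℕ) (h : 3 ≤ n) : S r (g r n) ≤ n := by
  induction n, h using Nat.le_induction with
  | base => rw [g3, S2 hr]
  | succ n h ih => rw [rec n h]; split_ifs with h'; exact h'; simp only [add_zero]; omega

lemma grow (hr : 2 ≤ r) (x : ℕ) (h : 1 ≤ x) : g r (x - r) < g r x := by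
  by_cases h1 : x ≤ r
  · rw [show x - r = 0 by omega, g0]; exact pos x h
  by_cases h2 : x - r = 1
  · rw [h2, g1]; exact two x (by omega)
  by_contra hn
  obtain ⟨x, rfl⟩ : ∃ y, x = y + 1 := ⟨x - 1, by omega⟩
  have a := mono (r := r) (show x + 1 - r ≤ x by omega)
  have b := (step (r := r) x).1
  have c := rec (r := r) x (by omega)
  have e : g r x = g r (x + 1 - r) := by omega
  rw [if_pos] at c
  · omega
  by_cases h3 : x + 1 - r = 2
  · rw [e, h3, g2]
    have := S3' hr
    omega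
  · have d := I1 hr (x + 1 - r) (by omega)
    have f := S_succ (r := r) (g r x)
    have k := lip (r := r) (g r x + 1 - r) r
    have l := mono (r := r) (show g r x + 1 ≤ g r x + 1 - r + r by omega)
    rw [← e] at d
    omega

lemma Smono (hr : 2 ≤ r) : StrictMono (S r) := strictMono_nat_of_lt_succ fun k => by
  have := S_succ (r := r) k
  have := grow hr (k + 1) (by omega)
  omega

lemma I2 (hr : 2 ≤ r) (n : ℕ) (h : 3 ≤ n) : n < S r (g r n + 1) := by
  induction n, h using Nat.le_induction with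
  | base => rw [g3]; have := S3' hr; omega
  | succ n h ih =>
    rw [rec n h]
    split_ifs with h'
    · have := Smono hr (show g r n + 1 < g r n + 1 + 1 by omega)
      omega
    · simp only [add_zero]; omega

lemma gal (hr : 2 ≤ r) (k n : ℕ) (h : 3 ≤ k) : k ≤ g r n ↔ S r k ≤ n := by
  have a := S3 hr
  have b := (Smono hr).monotone h
  by_cases hn : 3 ≤ n
  · refine ⟨fun h => ((Smono hr).monotone h).trans (I1 hr n hn), fun h => ?_⟩
    have := (Smono hr).lt_iff_lt.1 (h.trans_lt (I2 hr n hn))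
    omega
  · have := mono (r := r) (show n ≤ 3 by omega)
    rw [g3] at this
    omega

lemma sol (hr : 2 ≤ r) : Sol r (g r) := by
  refine ⟨g0, pos, mono, fun n hn => ?_⟩
  change g r (S r n) = n
  by_cases h : 3 ≤ n
  · have a := (gal hr n _ h).2 le_rfl
    have b := gal hr (n + 1) (S r n) (by omega)
    have c := Smono hr (show n < n + 1 by omega)
    omega
  · obtain rfl | rfl : n = 1 ∨ n = 2 := by omega
    · rw [S1 hr, g1]
    · rw [S2 hr, g3]

lemma ag (hr : 2 ≤ r) : AG r (g r) := by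
  refine ⟨sol hr, fun b ⟨b0, b1, b2, b3⟩ n hn => ?_⟩
  by_cases h : 3 ≤ n
  · have a := lt (r := r) n h
    have c := b3 (g r n) (pos n (by omega))
    rw [sum_congr rfl fun i _ => hn (g r n - i) (by omega)] at c
    exact c.symm.le.trans (b2 (I1 hr n h))
  · obtain rfl | rfl | rfl : n = 0 ∨ n = 1 ∨ n = 2 := by omega
    · simp [g0]
    · rw [g1]; exact b1 1 le_rfl
    · rw [g2]
      by_contra hc
      have e1 : b 1 = 1 := (hn 1 (by omega)).trans g1
      have e2 : b 2 = 1 := by have := b1 2 (by omega); omega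
      have c := b3 2 (by omega)
      obtain ⟨r, rfl⟩ : ∃ m, r = m + 2 := ⟨r - 2, by omega⟩
      rw [sum_range_succ', sum_range_succ', sum_eq_zero fun i _ => by
        rw [show 2 - (i + 1 + 1) = 0 by omega, b0]] at c
      simp [e1, e2] at c

lemma uniq (hr : 2 ≤ r) {a : ℕ → ℕ} (h : AG r a) : a = g r := by
  funext n
  induction n using Nat.strong_induction_on with
  | _ n ih =>
    exact le_antisymm (h.2 _ (sol hr) n fun k hk => (ih k hk).symm) ((ag hr).2 _ h.1 n ih)

lemma pre (x : ℕ) (h : x ≤ r) : S r x = ∑ i ∈ range (x + 1), g r i := by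
  induction x with
  | zero => simp [S0, g0]
  | succ x ih =>
    have := S_succ (r := r) x
    rw [show x + 1 - r = 0 by omega, g0, ih (by omega)] at this
    rw [sum_range_succ]; omega

lemma bound (hr : 2 ≤ r) (K : ℕ) (h3 : 3 ≤ K) (hK : g r r ≤ K) (m : ℕ) :
    3 ≤ m → S r (m + 1) ≤ S r m + K := by
  induction m using Nat.strong_induction_on with
  | _ m ih =>
  intro hm
  have s := S_succ (r := r) m
  by_cases h1 : m + 1 ≤ r
  · have := mono (r := r) h1
    omega
  by_contra hn
  obtain ⟨n, en⟩ : ∃ n, n = m + 1 - r := ⟨_, rfl⟩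
  rw [← en] at s
  obtain ⟨v, ev⟩ : ∃ v, v = g r n := ⟨_, rfl⟩
  have v1 : 1 ≤ v := ev ▸ pos n (by omega)
  have a1 := (gal hr (v + 1 + K) (m + 1) (by omega)).1 (by omega)
  have a2 : r < S r (K + 1) := by
    have := gal hr (K + 1) r (by omega)
    omega
  have vn : v ≤ n := by
    have := lip (r := r) 0 n
    rw [g0, zero_add] at this
    omega
  by_cases hv : v = 1
  · subst hv
    have b := Smono hr (show K + 1 < 1 + 1 + K by omega)
    have : ¬ 2 ≤ n := fun h => by have := two (r := r) n h; omega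
    omega
  have a3 : n < S r (v + 1) := by
    have := gal hr (v + 1) n (by omega)
    omega
  suffices S r (v + 1) + r ≤ S r (v + 1 + K) by omega
  by_cases h2 : r ≤ v + 1 + K
  · have : ∀ i ∈ range r, g r (v + 1 - i) + 1 ≤ g r (v + 1 + K - i) := by
      intro i hi
      rw [mem_range] at hi
      obtain ⟨j, ej⟩ : ∃ j, j = v + 1 - i := ⟨_, rfl⟩
      rw [← ej]
      by_cases j0 : j = 0
      · rw [j0, g0]; exact pos _ (by omega)
      rw [show v + 1 + K - i = j + K by omega]
      by_cases j1 : j = 1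
      · rw [j1, g1]; exact two _ (by omega)
      have c := mono (r := r) (show j ≤ m by omega)
      have d := lt (r := r) m hm
      have e := two (r := r) j (by omega)
      rw [gal hr _ _ (by omega)]
      by_cases j2 : g r j = 2
      · rw [j2]
        have := S3' hr
        omega
      · have := ih (g r j) (by omega) (by omega)
        have := (gal hr (g r j) j (by omega)).1 le_rfl
        omega
    simpa [sum_add_distrib, S] using sum_le_sum this
  · have p1 := pre (r := r) (v + 1 + K) (by omega)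
    have p2 := pre (r := r) (v + 1) (by omega)
    have p3 := pre (r := r) (K + 3) (by omega)
    have p4 := pre (r := r) 3 (by omega)
    rw [show v + 1 + K + 1 = v + 1 + 1 + K by omega, sum_range_add, ← p2] at p1
    rw [show K + 3 + 1 = 3 + 1 + K by omega, sum_range_add, ← p4] at p3
    have p5 : ∑ x ∈ range K, g r (3 + 1 + x) ≤ ∑ x ∈ range K, g r (v + 1 + 1 + x) :=
      sum_le_sum fun i _ => mono (by omega)
    have q1 := S_succ (r := r) (K + 1)
    have q2 := S_succ (r := r) (K + 2)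
    rw [show K + 1 + 1 - r = 0 by omega, g0] at q1
    rw [show K + 2 + 1 - r = 0 by omega, g0] at q2
    have q3 := two (r := r) (K + 1 + 1) (by omega)
    have q4 := two (r := r) (K + 2 + 1) (by omega)
    have := S3 hr
    rw [show K + 1 + 1 = K + 2 by omega] at q1 q3
    rw [show K + 2 + 1 = K + 3 by omega] at q2 q4
    omega

lemma mult_eq (hr : 2 ≤ r) (m : ℕ) (h : 3 ≤ m) : mult (g r) m = (S r (m + 1) - S r m : ℕ) := by
  have : {i | 1 ≤ i ∧ g r i = m} = (Ico (S r m) (S r (m + 1)) : Finset ℕ) := by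
    ext i
    have a := gal hr m i h
    have b := gal hr (m + 1) i (by omega)
    have c := (Smono hr).monotone h
    have := S3 hr
    simp only [Set.mem_ofPred_eq, coe_Ico, Set.mem_Ico]
    omega
  rw [mult, this, Set.encard_coe_eq_coe_finsetCard, Nat.card_Ico]

lemma max_le (hr : 2 ≤ r) (K : ℕ) (h3 : 3 ≤ K) (hK : g r r ≤ K) : maxMult (g r) ≤ K := by
  refine iSup₂_le fun m hm => ?_
  by_cases h : 3 ≤ m
  · rw [mult_eq hr m h]
    have := bound hr K h3 hK m h
    exact_mod_cast (by omega : S r (m + 1) - S r m ≤ K)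
  · have : {i | 1 ≤ i ∧ g r i = m} ⊆ (Ico m (m + 3) : Finset ℕ) := by
      rintro i ⟨h1, h2⟩
      have a := gal hr 3 i le_rfl
      have b := S3 hr
      have c := two (r := r) i
      have d : i = 1 → g r i = 1 := fun h => by rw [h, g1]
      simp only [coe_Ico, Set.mem_Ico]
      omega
    refine (Set.encard_le_encard this).trans ?_
    rw [Set.encard_coe_eq_coe_finsetCard, Nat.card_Ico]
    exact_mod_cast (by omega : m + 3 - m ≤ K)

lemma top (hr : 5 ≤ r) : mult (g r) (r - 1) = g r r ∧ maxMult (g r) = g r r := by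
  have a : mult (g r) (r - 1) = g r r := by
    have := S_succ (r := r) (r - 1)
    rw [show r - 1 + 1 - r = 0 by omega, g0] at this
    rw [mult_eq (by omega) _ (by omega)]
    congr 1
    rw [show r - 1 + 1 = r by omega] at this ⊢
    omega
  refine ⟨a, le_antisymm (max_le (by omega) _ ?_ le_rfl) ?_⟩
  · have := S3 (r := r) (by omega)
    rw [gal (by omega) 3 r le_rfl]; omega
  · rw [← a]
    exact le_iSup₂ (f := fun n (_ : 1 ≤ n) => mult (g r) n) (r - 1) (by omega)

section golomb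
variable {G : ℕ → ℕ} (hp : ∀ n, 1 ≤ n → 1 ≤ G n) (hm : ∀ m n, 1 ≤ m → m ≤ n → G m ≤ G n)
  (hc : ∀ n, 1 ≤ n → mult G n = G n)
include hp hm hc

lemma Ggal (k : ℕ) : ∀ i, 1 ≤ i → (G i ≤ k ↔ i ≤ ∑ n ∈ Icc 1 k, G n) := by
  induction k with
  | zero => intro i hi; have := hp i hi; simp; omega
  | succ k ih =>
    intro i hi
    rw [sum_Icc_succ_top (by omega)]
    generalize ∑ n ∈ Icc 1 k, G n = A at *
    have c := hc (k + 1) (by omega)
    constructor
    · intro h
      have : ((Ioc A i : Finset ℕ) : Set ℕ) ⊆ {i | 1 ≤ i ∧ G i = k + 1} := by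
        intro j hj
        simp only [coe_Ioc, Set.mem_Ioc] at hj
        have a := ih j (by omega)
        have b := hm j i (by omega) hj.2
        exact ⟨by omega, by omega⟩
      have := (Set.encard_le_encard this).trans c.le
      rw [Set.encard_coe_eq_coe_finsetCard, Nat.card_Ioc, Nat.cast_le] at this
      omega
    · intro h
      by_contra hn
      have : {i | 1 ≤ i ∧ G i = k + 1} ⊆ ((Ioo A i : Finset ℕ) : Set ℕ) := by
        rintro j ⟨h1, h2⟩
        have a := ih j h1
        have b := hm i j hi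
        simp only [coe_Ioo, Set.mem_Ioo]
        omega
      have := c.symm.le.trans (Set.encard_le_encard this)
      rw [Set.encard_coe_eq_coe_finsetCard, Nat.card_Ioo, Nat.cast_le] at this
      have a := ih i hi
      have := hp (k + 1) (by omega)
      omega

lemma Gle (n : ℕ) (h : 1 ≤ n) : G n ≤ n := by
  rw [Ggal hp hm hc n n h]
  simpa using card_nsmul_le_sum (Icc 1 n) G 1 fun i hi => hp i (mem_Icc.1 hi).1

lemma G12 : G 1 = 1 ∧ G 2 = 2 := by
  have a := Gle hp hm hc 1 le_rfl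
  have b := Gle hp hm hc 2 (by omega)
  have c := hp 1 le_rfl
  have d := Ggal hp hm hc 1 2 (by omega)
  simp at d
  omega

lemma gG (hr : 2 ≤ r) (n : ℕ) : 2 ≤ n → n + 1 ≤ r → g r (n + 1) = G n := by
  induction n using Nat.strong_induction_on with
  | _ n ih =>
  intro h2 hn
  obtain ⟨G1, G2⟩ := G12 hp hm hc
  have key : ∀ k, 1 ≤ k → k < n → S r (k + 1) = ∑ j ∈ Icc 1 k, G j + 2 := by
    intro k hk
    induction k, hk using Nat.le_induction with
    | base => intro _; simp [S2 hr, G1]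
    | succ k hk ik =>
      intro h
      have := S_succ (r := r) (k + 1)
      rw [show k + 1 + 1 - r = 0 by omega, g0, ih (k + 1) h (by omega) (by omega),
        ik (by omega)] at this
      rw [sum_Icc_succ_top (by omega)]
      omega
  have iff : ∀ k, 2 ≤ k → k < n → (k + 1 ≤ g r (n + 1) ↔ k + 1 ≤ G n) := by
    intro k h1 h
    have := Ggal hp hm hc k n (by omega)
    rw [gal hr _ _ (by omega), key k (by omega) h]
    omega
  have a := lt (r := r) (n + 1) (by omega)
  have b := Gle hp hm hc n (by omega)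
  have c := two (r := r) (n + 1) (by omega)
  have d := hm 2 n (by omega) h2
  have e := iff (G n) (by omega)
  have f := iff (g r (n + 1)) c
  omega

lemma least (k : ℕ) (hk : 4 ≤ k) :
    IsLeast {r | 2 ≤ r ∧ (k : ℕ∞) ≤ maxMult (g r)} (∑ n ∈ Icc 1 (k - 1), G n + 2) := by
  have a : ∀ r, 5 ≤ r → ((k : ℕ∞) ≤ maxMult (g r) ↔ ∑ n ∈ Icc 1 (k - 1), G n + 2 ≤ r) := by
    intro r hr
    have b := gG hp hm hc (r := r) (by omega) (r - 1) (by omega) (by omega)
    have c := Ggal hp hm hc (k - 1) (r - 1) (by omega)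
    rw [show r - 1 + 1 = r by omega] at b
    rw [(top hr).2, Nat.cast_le, b]
    omega
  have b : k - 1 ≤ ∑ n ∈ Icc 1 (k - 1), G n := by
    simpa using card_nsmul_le_sum (Icc 1 (k - 1)) G 1 fun i hi => hp i (mem_Icc.1 hi).1
  refine ⟨⟨by omega, (a _ (by omega)).2 le_rfl⟩, fun r ⟨h1, h2⟩ => ?_⟩
  by_cases h : 5 ≤ r
  · exact (a r h).1 h2
  · have c := lip (r := r) 3 1
    have d := mono (r := r) (show r ≤ 3 + 1 by omega)
    rw [g3] at c
    have := h2.trans (max_le h1 3 le_rfl (by omega))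
    rw [Nat.cast_le] at this
    omega

end golomb

end Pool.Agent.H.MP_c02c06_co
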